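import Pool.Agent.Lib.MP_cc2398_al.BR.All
import Pool.Agent.Lib.MP_cc2398_al.Bf.Ratio

set_option autoImplicit false

/-!
# MP_cc2398_al: the groups induced on finite blocks; bounded rank

`G` acts faithfully and transitively on the infinite set `Ω` and all proper subgroups have finite orbits.  Suppose
that each finite set is contained in a finite block `B` for which there is a chain of subgroups from the pointwise to
the setwise stabilizer of `B` such that each term contains all commutators of the next term, or all elements of the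
next term which are killed by all homomorphisms of the next term into groups `GL c E`, `E` a field.  Then `G` is
locally finite.

So an example of a totally imprimitive barely transitive group which is not locally finite must involve alternating
groups of unbounded degree or classical groups of unbounded rank.

The proof is in `Pool/Agent/Lib/MP_cc2398_al/BR`.
-/

namespace Pool.Agent.Results.MP_cc2398_al.BoundedRank

open Pool.Agent.MPcc2398

universe u v w

theorem result (G : Type u) [Group G] (Ω : Type v) [MulAction G Ω] [Infinite Ω] [FaithfulSMul G Ω]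
    [MulAction.IsPretransitive G Ω]
    (hbarely : ∀ K : Subgroup G, K ≠ ⊤ → ∀ ω : Ω, (MulAction.orbit K ω).Finite) (c : ℕ)
    (himp : ∀ F : Set Ω, F.Finite → ∃ B : Set Ω, F ⊆ B ∧ B.Finite ∧ MulAction.IsBlock G B ∧
      ∃ (k : ℕ) (N : ℕ → Subgroup G), (∀ g : G, (∀ β ∈ B, g • β ∈ B) → g ∈ N k) ∧
        (∀ g ∈ N 0, ∀ β ∈ B, g • β = β) ∧
        ∀ i < k, (∀ a ∈ N (i + 1), ∀ b ∈ N (i + 1), a * b * a⁻¹ * b⁻¹ ∈ N i) ∨
          ∀ x : N (i + 1), (∀ (E : Type w) [Field E] (φ : N (i + 1) →* Matrix.GeneralLinearGroup (Fin c) E),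
            φ x = 1) → (x : G) ∈ N i) :
    ∀ s : Finset G, ((Subgroup.closure (s : Set G) : Subgroup G) : Set G).Finite :=
  BR.aTwL G Ω inferInstance inferInstance inferInstance hbarely c himp

open Pointwise in
/-- Special case: for arbitrarily large finite blocks `B` the group induced on `B` by its setwise stabilizer is
isomorphic to a subgroup of `GL c E` for some field `E` depending on `B`. -/
theorem linear_case (G : Type u) [Group G] (Ω : Type v) [MulAction G Ω] [Infinite Ω] [FaithfulSMul G Ω]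
    [MulAction.IsPretransitive G Ω]
    (hbarely : ∀ K : Subgroup G, K ≠ ⊤ → ∀ ω : Ω, (MulAction.orbit K ω).Finite) (c : ℕ)
    (himp : ∀ F : Set Ω, F.Finite → ∃ B : Set Ω, F ⊆ B ∧ B.Finite ∧ MulAction.IsBlock G B ∧
      ∃ (E : Type w) (_ : Field E) (φ : MulAction.stabilizer G B →* Matrix.GeneralLinearGroup (Fin c) E),
        ∀ g, φ g = 1 → ∀ β ∈ B, (g : G) • β = β) :
    ∀ s : Finset G, ((Subgroup.closure (s : Set G) : Subgroup G) : Set G).Finite := by
  refine result.{u, v, w} G Ω hbarely c (fun F hF => ?_)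
  obtain ⟨B, h1, h2, h3, E, hE, φ, hφ⟩ := himp F hF
  refine ⟨B, h1, h2, h3, 1, fun i => Nat.rec (motive := fun _ => Subgroup G) (fixingSubgroup G B)
    (fun _ _ => MulAction.stabilizer G B) i, ?_, ?_, ?_⟩
  · intro g hg
    change g ∈ MulAction.stabilizer G B
    rcases B.eq_empty_or_nonempty with he | ⟨β, hβ⟩
    · rw [he, MulAction.mem_stabilizer_iff]
      simp
    · exact Bf.stab_of_block h3 hβ (hg β hβ)
  · intro g hg β hβ
    exact (mem_fixingSubgroup_iff G).1 hg β hβ
  · intro i hi
    obtain rfl : i = 0 := by omega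
    right
    intro x hx
    change (x : G) ∈ fixingSubgroup G B
    rw [mem_fixingSubgroup_iff]
    exact hφ x (hx E φ)

/-- Special case (the steps have bounded index or contain the derived subgroup): the nonabelian composition factors of
the groups induced on the blocks have bounded order. -/
theorem bounded_index_case (G : Type u) [Group G] (Ω : Type v) [MulAction G Ω] [Infinite Ω] [FaithfulSMul G Ω]
    [MulAction.IsPretransitive G Ω]
    (hbarely : ∀ K : Subgroup G, K ≠ ⊤ → ∀ ω : Ω, (MulAction.orbit K ω).Finite) (c : ℕ)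
    (himp : ∀ F : Set Ω, F.Finite → ∃ B : Set Ω, F ⊆ B ∧ B.Finite ∧ MulAction.IsBlock G B ∧
      ∃ (k : ℕ) (N : ℕ → Subgroup G), (∀ g : G, (∀ β ∈ B, g • β ∈ B) → g ∈ N k) ∧
        (∀ g ∈ N 0, ∀ β ∈ B, g • β = β) ∧
        ∀ i < k, (∀ a ∈ N (i + 1), ∀ b ∈ N (i + 1), a * b * a⁻¹ * b⁻¹ ∈ N i) ∨
          ((N i).relIndex (N (i + 1)) ≠ 0 ∧ (N i).relIndex (N (i + 1)) ≤ c)) :
    ∀ s : Finset G, ((Subgroup.closure (s : Set G) : Subgroup G) : Set G).Finite := by
  refine result.{u, v, 0} G Ω hbarely c (fun F hF => ?_)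
  obtain ⟨B, h1, h2, h3, k, N, h4, h5, h6⟩ := himp F hF
  refine ⟨B, h1, h2, h3, k, N, h4, h5, fun i hi => ?_⟩
  rcases h6 i hi with h | ⟨h0, hc⟩
  · exact Or.inl h
  · exact Or.inr (fun x hx => BR.index_step h0 hc x hx)

/-- Special case: `Ω` is the union of a chain of finite blocks `B 0 ⊆ B 1 ⊆ ...` with `|B (i + 1)| ≤ c |B i|`. -/
theorem bounded_ratio_case (G : Type u) [Group G] (Ω : Type v) [MulAction G Ω] [Infinite Ω] [FaithfulSMul G Ω]
    [MulAction.IsPretransitive G Ω]
    (hbarely : ∀ K : Subgroup G, K ≠ ⊤ → ∀ ω : Ω, (MulAction.orbit K ω).Finite)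
    (c : ℕ) (B : ℕ → Set Ω) (hBf : ∀ i, (B i).Finite) (hB : ∀ i, MulAction.IsBlock G (B i))
    (hne : (B 0).Nonempty) (hmono : ∀ i, B i ⊆ B (i + 1))
    (hcard : ∀ i, (B (i + 1)).ncard ≤ c * (B i).ncard) (hun : ∀ ω : Ω, ∃ i, ω ∈ B i) :
    ∀ s : Finset G, ((Subgroup.closure (s : Set G) : Subgroup G) : Set G).Finite :=
  aRatio G Ω hbarely c B hBf hB hne hmono hcard hun

end Pool.Agent.Results.MP_cc2398_al.BoundedRank
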