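import Pool.Agent.Lib.MP_cc2398_al.All
import Pool.Agent.Lib.MP_cc2398_al.Sol
import Pool.Agent.Lib.MP_cc2398_al.Ln.MainN

set_option autoImplicit false

/-!
# MP_cc2398_al: totally imprimitive barely transitive groups with hyper-(locally finite or locally nilpotent) stabilizer

`G` acts faithfully and transitively on the infinite set `Ω`, all proper subgroups have finite orbits, each finite
set is contained in a finite block.  If some subgroup `K` commensurable with a point stabilizer has the property that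
each proper normal subgroup `N` of `K` is properly contained in a normal subgroup `M` of `K` with `M/N` locally
finite or locally nilpotent, then `G` is locally finite.

The proof is in `Pool/Agent/Lib/MP_cc2398_al` (statements with proofs in words in `Spec`; for locally nilpotent
subgroups in the folder `Ln`).
-/

namespace Pool.Agent.Results.MP_cc2398_al.HyperStabilizer

open Pool.Agent.MPcc2398

universe u v

theorem result (G : Type u) [Group G] (Ω : Type v) [MulAction G Ω] [Infinite Ω] [FaithfulSMul G Ω]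
    [MulAction.IsPretransitive G Ω]
    (hbarely : ∀ K : Subgroup G, K ≠ ⊤ → ∀ ω : Ω, (MulAction.orbit K ω).Finite)
    (himp : ∀ F : Set Ω, F.Finite → ∃ B : Set Ω, F ⊆ B ∧ B.Finite ∧ MulAction.IsBlock G B)
    (ω : Ω) (K : Subgroup G)
    (h₁ : K.relIndex (MulAction.stabilizer G ω) ≠ 0) (h₂ : (MulAction.stabilizer G ω).relIndex K ≠ 0)
    (hK : ∀ N : Subgroup G, N < K → (∀ k ∈ K, ∀ n ∈ N, k * n * k⁻¹ ∈ N) →
      ∃ M : Subgroup G, N < M ∧ M ≤ K ∧ (∀ k ∈ K, ∀ m ∈ M, k * m * k⁻¹ ∈ M) ∧
        ((∀ s : Finset G, (s : Set G) ⊆ M → N.relIndex (Subgroup.closure (s : Set G)) ≠ 0) ∨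
         (∀ s : Finset G, (s : Set G) ⊆ M →
            ∃ c : ℕ, (Subgroup.closure (s : Set G)).lowerCentralSeries c ≤ N))) :
    ∀ s : Finset G, ((Subgroup.closure (s : Set G) : Subgroup G) : Set G).Finite := by
  obtain ⟨hTB, hcore⟩ := aAct G Ω inferInstance inferInstance inferInstance hbarely himp ω
  have hLF : LF (⊤ : Subgroup G) := by
    by_contra hnlf
    obtain ⟨R, hRn, hRt, hRLF, hRmax, hst⟩ := aMain G _ hTB hcore hnlf
    obtain ⟨c1, -⟩ := aCom G _ hTB
    have hCo : Co (MulAction.stabilizer G ω) K := ⟨h₁, h₂⟩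
    obtain ⟨b1, b2, b3, b4⟩ := hst K hCo
    have hKR : ¬ K ≤ R := by
      intro h
      apply hRt
      rw [Subgroup.eq_top_iff']
      intro g
      apply b1 g
      intro k hk
      exact R.mul_mem (hRn.conj_mem k (h hk) g) (R.inv_mem (h hk))
    have hlt : K ⊓ R < K := lt_of_le_of_ne inf_le_left (fun h => hKR (inf_eq_left.1 h))
    have hinv : Inv K (K ⊓ R) := (inv_self K).inf (fun l _ m hm => hRn.conj_mem m hm l)
    obtain ⟨M, hNM, hMK, hKM, h⟩ := hK (K ⊓ R) hlt hinv
    have hMR : M ≤ R := by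
      rcases h with h | h
      · refine b2 M hMK hKM (fun s hs h0 => h s hs ?_)
        exact Subgroup.relIndex_eq_zero_of_le_left inf_le_right h0
      · refine aMainN G _ hTB hnlf R hRn hRt hRLF hRmax K M hCo hMK hKM (fun s hs => ?_)
        obtain ⟨c, hc⟩ := h s hs
        exact ⟨c, hc.trans inf_le_right⟩
    exact absurd (le_inf hMK hMR) (not_le_of_gt hNM)
  intro s
  exact hLF s (by simp)

/-- The case of a soluble subgroup `K` commensurable with a point stabilizer, i.e. of soluble-by-finite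
stabilizers. -/
theorem soluble_case (G : Type u) [Group G] (Ω : Type v) [MulAction G Ω] [Infinite Ω] [FaithfulSMul G Ω]
    [MulAction.IsPretransitive G Ω]
    (hbarely : ∀ K : Subgroup G, K ≠ ⊤ → ∀ ω : Ω, (MulAction.orbit K ω).Finite)
    (himp : ∀ F : Set Ω, F.Finite → ∃ B : Set Ω, F ⊆ B ∧ B.Finite ∧ MulAction.IsBlock G B)
    (ω : Ω) (K : Subgroup G)
    (h₁ : K.relIndex (MulAction.stabilizer G ω) ≠ 0) (h₂ : (MulAction.stabilizer G ω).relIndex K ≠ 0)
    (hK : Group.IsSolvable K) :
    ∀ s : Finset G, ((Subgroup.closure (s : Set G) : Subgroup G) : Set G).Finite := by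
  refine result G Ω hbarely himp ω K h₁ h₂ (fun N hN hKN => ?_)
  obtain ⟨M, hNM, hMK, hKM, h⟩ := hyper_of_solvable K hK N hN hKN
  refine ⟨M, hNM, hMK, hKM, ?_⟩
  rcases h with h | h
  · exact Or.inl h
  · refine Or.inr (fun s hs => ⟨1, ?_⟩)
    rw [Subgroup.lowerCentralSeries_succ, Subgroup.lowerCentralSeries_zero, Subgroup.commutator_le]
    intro a ha b hb
    have hle : Subgroup.closure (s : Set G) ≤ M := (Subgroup.closure_le M).2 hs
    exact h a (hle ha) b (hle hb)

/-- The case of a locally nilpotent subgroup `K` commensurable with a point stabilizer. -/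
theorem locally_nilpotent_case (G : Type u) [Group G] (Ω : Type v) [MulAction G Ω] [Infinite Ω] [FaithfulSMul G Ω]
    [MulAction.IsPretransitive G Ω]
    (hbarely : ∀ K : Subgroup G, K ≠ ⊤ → ∀ ω : Ω, (MulAction.orbit K ω).Finite)
    (himp : ∀ F : Set Ω, F.Finite → ∃ B : Set Ω, F ⊆ B ∧ B.Finite ∧ MulAction.IsBlock G B)
    (ω : Ω) (K : Subgroup G)
    (h₁ : K.relIndex (MulAction.stabilizer G ω) ≠ 0) (h₂ : (MulAction.stabilizer G ω).relIndex K ≠ 0)
    (hK : ∀ s : Finset G, (s : Set G) ⊆ K → Group.IsNilpotent ↥(Subgroup.closure (s : Set G))) :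
    ∀ s : Finset G, ((Subgroup.closure (s : Set G) : Subgroup G) : Set G).Finite := by
  refine result G Ω hbarely himp ω K h₁ h₂ (fun N hN _ => ?_)
  refine ⟨K, hN, le_refl K, fun k hk m hm => K.mul_mem (K.mul_mem hk hm) (K.inv_mem hk), Or.inr (fun s hs => ?_)⟩
  obtain ⟨c, hc⟩ := (Subgroup.isNilpotent_iff_lowerCentralSeries _).1 (hK s hs)
  exact ⟨c, by rw [hc]; exact bot_le⟩

end Pool.Agent.Results.MP_cc2398_al.HyperStabilizer
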