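import Pool.Agent.Lib.MP_cc2398_al.OE.All

set_option autoImplicit false

/-!
# MP_cc2398_al: finitely generated stabilizers have at most one end

`G` acts faithfully and transitively on the infinite set `Ω`, all proper subgroups have finite orbits, each finite
set is contained in a finite block.  Every finitely generated subgroup `K` commensurable with a point stabilizer has
at most one end: a subset `A` of `K` such that `{y ∈ A : y k ∉ A}` is finite for each `k ∈ K` is finite or has a finite
complement in `K`.

The proof is in `Pool/Agent/Lib/MP_cc2398_al/OE` (statements with proofs in words in `OE/Spec`).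
-/

namespace Pool.Agent.Results.MP_cc2398_al.OneEnded

open Pool.Agent.MPcc2398

universe u v

theorem result (G : Type u) [Group G] (Ω : Type v) [MulAction G Ω] [Infinite Ω] [FaithfulSMul G Ω]
    [MulAction.IsPretransitive G Ω]
    (hbarely : ∀ K : Subgroup G, K ≠ ⊤ → ∀ ω : Ω, (MulAction.orbit K ω).Finite)
    (himp : ∀ F : Set Ω, F.Finite → ∃ B : Set Ω, F ⊆ B ∧ B.Finite ∧ MulAction.IsBlock G B)
    (ω : Ω) (K : Subgroup G)
    (h₁ : K.relIndex (MulAction.stabilizer G ω) ≠ 0) (h₂ : (MulAction.stabilizer G ω).relIndex K ≠ 0)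
    (hfg : K.FG) (A : Set K) (hA : ∀ k : K, {y | y ∈ A ∧ y * k ∉ A}.Finite) :
    A.Finite ∨ Aᶜ.Finite := by
  obtain ⟨hTB, hcore⟩ := aAct G Ω inferInstance inferInstance inferInstance hbarely himp ω
  exact OE.aOne G _ hTB hcore K ⟨h₁, h₂⟩ ((Group.fg_iff_subgroup_fg K).2 hfg) A hA

end Pool.Agent.Results.MP_cc2398_al.OneEnded
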