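import Pool.Agent.Lib.MP_cc2398_al.All
import Pool.Agent.Lib.MP_cc2398_al.Ln.MainN

set_option autoImplicit false

/-!
# MP_cc2398_al: structure of totally imprimitive barely transitive groups which are not locally finite

The proof is in `Pool/Agent/Lib/MP_cc2398_al` (statements with proofs in words in `Spec`; for locally nilpotent
subgroups in the folder `Ln`).
-/

namespace Pool.Agent.Results.MP_cc2398_al.Structure

open Pool.Agent.MPcc2398

universe u v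

theorem result (G : Type u) [Group G] (Ω : Type v) [MulAction G Ω] [Infinite Ω] [FaithfulSMul G Ω]
    [MulAction.IsPretransitive G Ω]
    (hbarely : ∀ K : Subgroup G, K ≠ ⊤ → ∀ ω : Ω, (MulAction.orbit K ω).Finite)
    (himp : ∀ F : Set Ω, F.Finite → ∃ B : Set Ω, F ⊆ B ∧ B.Finite ∧ MulAction.IsBlock G B)
    (hnlf : ∃ s : Finset G, ((Subgroup.closure (s : Set G) : Subgroup G) : Set G).Infinite) :
    ∃ R : Subgroup G, R.Normal ∧ R ≠ ⊤ ∧ (∀ N : Subgroup G, N.Normal → N ≠ ⊤ → N ≤ R) ∧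
      (∀ s : Finset G, (s : Set G) ⊆ R → ((Subgroup.closure (s : Set G) : Subgroup G) : Set G).Finite) ∧
      ∀ (ω : Ω) (K : Subgroup G), K.relIndex (MulAction.stabilizer G ω) ≠ 0 →
        (MulAction.stabilizer G ω).relIndex K ≠ 0 →
        (∀ g : G, (∀ k ∈ K, g * k * g⁻¹ * k⁻¹ ∈ R) → g ∈ R) ∧
        (∀ N : Subgroup G, N ≤ K → (∀ k ∈ K, ∀ n ∈ N, k * n * k⁻¹ ∈ N) →
          ((∀ s : Finset G, (s : Set G) ⊆ N → R.relIndex (Subgroup.closure (s : Set G)) ≠ 0) ∨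
           (∀ s : Finset G, (s : Set G) ⊆ N →
              ∃ c : ℕ, (Subgroup.closure (s : Set G)).lowerCentralSeries c ≤ R)) → N ≤ R) ∧
        (∀ x ∈ K, x ∉ R → ∃ K₁ : Subgroup G, K₁ ≤ K ∧ R ⊓ K ≤ K₁ ∧ K₁.relIndex K ≠ 0 ∧ x ∉ K₁) := by
  have hn : ¬ LF (⊤ : Subgroup G) := by
    intro h
    obtain ⟨s, hs⟩ := hnlf
    exact hs (h s (by simp))
  obtain ⟨ω₀⟩ : Nonempty Ω := inferInstance
  obtain ⟨hTB₀, hcore₀⟩ := aAct G Ω inferInstance inferInstance inferInstance hbarely himp ω₀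
  obtain ⟨R, hRn, hRt, hRLF, hRmax, -⟩ := aMain G _ hTB₀ hcore₀ hn
  refine ⟨R, hRn, hRt, hRmax, hRLF, ?_⟩
  intro ω K h₁ h₂
  obtain ⟨hTB, hcore⟩ := aAct G Ω inferInstance inferInstance inferInstance hbarely himp ω
  obtain ⟨R', hRn', hRt', hRLF', hRmax', hst⟩ := aMain G _ hTB hcore hn
  have hRR : R' = R := le_antisymm (hRmax R' hRn' hRt') (hRmax' R hRn hRt)
  subst hRR
  obtain ⟨b1, b2, b3, b4⟩ := hst K ⟨h₁, h₂⟩
  refine ⟨b1, ?_, b4⟩
  intro N hN hKN h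
  rcases h with h | h
  · exact b2 N hN hKN h
  · exact aMainN G _ hTB hn R' hRn hRt hRLF' hRmax' K N ⟨h₁, h₂⟩ hN hKN h

end Pool.Agent.Results.MP_cc2398_al.Structure
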